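import Mathlib

set_option autoImplicit false
open MeasureTheory Filter Topology

namespace Pool.Agent.H.MP_e081a1_an

section L1
variable {X : Type} [Countable X] [MeasurableSpace X] [MeasurableSingletonClass X]
  {ν : Measure X} {E F : Type} [NormedAddCommGroup E] [NormedSpace ℝ E]
  [NormedAddCommGroup F] [NormedSpace ℝ F]

noncomputable def ind (s : Set X) (g : Lp E 1 ν) : Lp E 1 ν :=
  ((Lp.memLp g).indicator (MeasurableSet.of_discrete (s := s))).toLp _

omit [NormedSpace ℝ E] in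
lemma ind_coe (s : Set X) (g : Lp E 1 ν) : ind s g =ᵐ[ν] s.indicator g := MemLp.coeFn_toLp _

omit [NormedSpace ℝ E] in
lemma ind_norm (s : Set X) (g : Lp E 1 ν) : ‖ind s g‖ = ∫ z in s, ‖g z‖ ∂ν := by
  rw [L1.norm_eq_integral_norm, ← integral_indicator MeasurableSet.of_discrete]
  apply integral_congr_ae
  filter_upwards [ind_coe s g] with z hz
  rw [hz, norm_indicator_eq_indicator_norm]

omit [NormedSpace ℝ E] in
lemma ind_union (s t : Set X) (h : Disjoint s t) (g : Lp E 1 ν) :
    ind (s ∪ t) g = ind s g + ind t g := by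
  apply Lp.ext
  filter_upwards [ind_coe s g, ind_coe t g, ind_coe (s ∪ t) g, Lp.coeFn_add (ind s g) (ind t g)]
    with z h1 h2 h3 h4
  rw [h4, h3, Pi.add_apply, h1, h2, Set.indicator_union_of_disjoint h]

omit [NormedSpace ℝ E] in
lemma ind_univ (g : Lp E 1 ν) : ind Set.univ g = g := by
  apply Lp.ext
  filter_upwards [ind_coe Set.univ g] with z h1
  rw [h1, Set.indicator_univ]

lemma l1 (T : Lp E 1 ν →L[ℝ] F) (K : ℝ) (hK : 0 ≤ K)
    (h : ∀ x : X, ∀ ξ : Lp E 1 ν, (∀ᵐ z ∂ν, z ∉ ({x} : Set X) → ξ z = 0) → ‖T ξ‖ ≤ K * ‖ξ‖)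
    (g : Lp E 1 ν) : ‖T g‖ ≤ K * ‖g‖ := by
  classical
  have hi : Integrable (fun z => ‖g z‖) ν := (L1.integrable_coeFn g).norm
  have h1 : ∀ A : Finset X, ‖T (ind (A : Set X) g)‖ ≤ K * ∫ z in (A : Set X), ‖g z‖ ∂ν := by
    intro A
    induction A using Finset.induction_on with
    | empty =>
      have : ‖ind ((∅ : Finset X) : Set X) g‖ = 0 := by rw [ind_norm]; simp
      rw [norm_eq_zero] at this
      rw [this]; simp
    | insert x A hx ih =>
      have hd : Disjoint ({x} : Set X) (A : Set X) := by simpa using hx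
      rw [Finset.coe_insert, Set.insert_eq, ind_union _ _ hd, map_add,
        setIntegral_union hd MeasurableSet.of_discrete hi.integrableOn hi.integrableOn, mul_add]
      refine (norm_add_le _ _).trans (add_le_add ?_ ih)
      rw [← ind_norm]
      apply h x
      filter_upwards [ind_coe {x} g] with z hz hz'
      rw [hz, Set.indicator_of_notMem hz']
  have h2 : ∀ A : Finset X, ‖T g‖ ≤ K * ‖g‖ + ‖T‖ * (‖g‖ - ∫ z in (A : Set X), ‖g z‖ ∂ν) := by
    intro A
    have e : g = ind (A : Set X) g + ind (A : Set X)ᶜ g := by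
      rw [← ind_union _ _ disjoint_compl_right, Set.union_compl_self, ind_univ]
    have e2 := integral_add_compl (μ := ν) (MeasurableSet.of_discrete (s := (A : Set X))) hi
    rw [← L1.norm_eq_integral_norm] at e2
    have e3 : 0 ≤ ∫ z in (A : Set X)ᶜ, ‖g z‖ ∂ν := integral_nonneg fun z => norm_nonneg _
    have e4 := T.le_opNorm (ind (A : Set X)ᶜ g)
    rw [ind_norm] at e4
    calc ‖T g‖ = ‖T (ind (A : Set X) g) + T (ind (A : Set X)ᶜ g)‖ := by rw [← map_add, ← e]
      _ ≤ _ := norm_add_le _ _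
      _ ≤ _ := by
        refine add_le_add ((h1 A).trans (mul_le_mul_of_nonneg_left (by linarith) hK)) ?_
        refine e4.trans (le_of_eq ?_)
        congr 1; linarith
  have h3 := tendsto_setIntegral_of_monotone (μ := ν) (f := fun z => ‖g z‖)
    (s := fun A : Finset X => (A : Set X)) (fun A => MeasurableSet.of_discrete)
    (fun A B hAB => by exact_mod_cast hAB) hi.integrableOn
  have e : (⋃ A : Finset X, (A : Set X)) = Set.univ := by
    ext z; simp only [Set.mem_iUnion, Set.mem_univ, iff_true]; exact ⟨{z}, by simp⟩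
  rw [e, Measure.restrict_univ, ← L1.norm_eq_integral_norm] at h3
  have h4 := ((h3.const_sub ‖g‖).const_mul ‖T‖).const_add (K * ‖g‖)
  simp only [sub_self, mul_zero, add_zero] at h4
  exact ge_of_tendsto' h4 h2

lemma onl [Nontrivial E] (hν : ν ≠ 0) (hf : ∀ x : X, ν {x} ≠ ⊤) (T : Lp E 1 ν →L[ℝ] F) :
    ∃ ξ : Lp E 1 ν, ξ ≠ 0 ∧ (∃ x : X, ∀ᵐ z ∂ν, z ∉ ({x} : Set X) → ξ z = 0) ∧
      1 / 2 * ‖T‖ * ‖ξ‖ ≤ ‖T ξ‖ := by
  by_cases hT : ‖T‖ = 0
  · obtain ⟨x, hx⟩ : ∃ x : X, ν {x} ≠ 0 := by
      by_contra h0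
      push Not at h0
      apply hν
      apply Measure.ext_of_singleton
      simpa using h0
    obtain ⟨c, hc⟩ := exists_ne (0 : E)
    refine ⟨indicatorConstLp 1 (measurableSet_singleton x) (hf x) c, ?_, ⟨x, ?_⟩, ?_⟩
    · rw [← norm_ne_zero_iff, norm_indicatorConstLp (by norm_num) (by norm_num)]
      have : 0 < ν.real {x} := ENNReal.toReal_pos hx (hf x)
      have := norm_pos_iff.2 hc
      positivity
    · exact indicatorConstLp_coeFn_notMem
    · rw [hT]; simp
  · by_contra h0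
    push Not at h0
    have h1 := l1 T (1 / 2 * ‖T‖) (by positivity) (fun x ξ hξ => by
      by_cases h : ξ = 0
      · rw [h]; simp
      · exact (h0 ξ h ⟨x, hξ⟩).le)
    have h2 := T.opNorm_le_bound (by positivity) h1
    have h3 := T.opNorm_nonneg
    apply hT; linarith
end L1

def Red (n : ℕ) : Type := {l : List (Fin 3) // l.IsChain (· ≠ ·) ∧ l.length ≤ n}

instance (n : ℕ) : Finite (Red n) :=
  ((List.finite_length_le (Fin 3) n).subset (t := {l | l.IsChain (· ≠ ·) ∧ l.length ≤ n})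
    fun _ h => h.2).to_subtype

def tau (n : ℕ) (i : Fin 3) (l : List (Fin 3)) : List (Fin 3) :=
  if l.head? = some i then l.tail else if l.length < n then i :: l else l

lemma chain_cons {i : Fin 3} {l : List (Fin 3)} :
    (i :: l).IsChain (· ≠ ·) ↔ l.head? ≠ some i ∧ l.IsChain (· ≠ ·) := by
  cases l with
  | nil => simp
  | cons j l => simp [eq_comm]

lemma tau_red (n : ℕ) (i : Fin 3) (l : List (Fin 3)) (h : l.IsChain (· ≠ ·) ∧ l.length ≤ n) :
    (tau n i l).IsChain (· ≠ ·) ∧ (tau n i l).length ≤ n := by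
  unfold tau
  split_ifs with h1 h2
  · exact ⟨h.1.tail, by simp; omega⟩
  · exact ⟨chain_cons.2 ⟨h1, h.1⟩, by simp; omega⟩
  · exact h

lemma tau_tau (n : ℕ) (i : Fin 3) (l : List (Fin 3)) (h : l.IsChain (· ≠ ·) ∧ l.length ≤ n) :
    tau n i (tau n i l) = l := by
  by_cases h1 : l.head? = some i
  · cases l with
    | nil => simp at h1
    | cons j l =>
      have : j = i := by simpa using h1
      subst this
      have h2 := chain_cons.1 h.1
      have h3 : l.length < n := by have := h.2; simp at this; omega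
      simp [tau, h2.1, h3]
  · by_cases h2 : l.length < n
    · simp [tau, h1, h2]
    · simp [tau, h1, h2]

def sig (n : ℕ) (i : Fin 3) : Equiv.Perm (Red n) :=
  Function.Involutive.toPerm (fun l => ⟨tau n i l.1, tau_red n i l.1 l.2⟩)
    (fun l => Subtype.ext (tau_tau n i l.1 l.2))

lemma sig_sig (n : ℕ) (i : Fin 3) : sig n i * sig n i = 1 := by
  ext l
  exact Subtype.ext (tau_tau n i l.1 l.2)

def Y : Type := Σ n : ℕ, Equiv.Perm (Red n)

instance : Countable Y := by unfold Y; infer_instance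

def s (i : Fin 3) (x : Y) : Y := ⟨x.1, sig x.1 i * x.2⟩

def act (l : List (Fin 3)) (x : Y) : Y := l.foldr s x

lemma s_s (i : Fin 3) (x : Y) : s i (s i x) = x := by
  have : sig x.1 i * (sig x.1 i * x.2) = x.2 := by rw [← mul_assoc, sig_sig, one_mul]
  change (⟨x.1, sig x.1 i * (sig x.1 i * x.2)⟩ : Y) = x
  rw [this]
  rfl

lemma act_eq (l : List (Fin 3)) (x : Y) : act l x = ⟨x.1, (l.map (sig x.1)).prod * x.2⟩ := by
  induction l with
  | nil => simp [act]
  | cons i l ih =>
    have : act (i :: l) x = s i (act l x) := rfl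
    rw [this, ih]
    simp [s, mul_assoc]

lemma act_lev (l : List (Fin 3)) (x : Y) : (act l x).1 = x.1 := by rw [act_eq]

lemma prod_root (n : ℕ) (l : List (Fin 3)) (h : l.IsChain (· ≠ ·) ∧ l.length ≤ n) :
    ((l.map (sig n)).prod ⟨[], by simp⟩).1 = l := by
  induction l with
  | nil => simp
  | cons i l ih =>
    have h2 := chain_cons.1 h.1
    have h3 : l.length < n := by have := h.2; simp at this; omega
    rw [List.map_cons, List.prod_cons, Equiv.Perm.mul_apply]
    change tau n i _ = _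
    rw [ih ⟨h2.2, h3.le⟩]
    simp [tau, h2.1, h3]

lemma act_inj (l l' : List (Fin 3)) (x : Y) (h : l.IsChain (· ≠ ·) ∧ l.length ≤ x.1)
    (h' : l'.IsChain (· ≠ ·) ∧ l'.length ≤ x.1) (e : act l x = act l' x) : l = l' := by
  rw [act_eq, act_eq] at e
  have e1 := eq_of_heq (Sigma.mk.inj e).2
  rw [← prod_root _ l h, ← prod_root _ l' h', mul_right_cancel e1]

lemma reduce (l : List (Fin 3)) : ∃ l' : List (Fin 3), l'.IsChain (· ≠ ·) ∧
    l'.length ≤ l.length ∧ ∀ x, act l' x = act l x := by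
  induction l with
  | nil => exact ⟨[], by simp, le_rfl, fun _ => rfl⟩
  | cons i l ih =>
    obtain ⟨l', h1, h2, h3⟩ := ih
    by_cases h : l'.head? = some i
    · cases l' with
      | nil => simp at h
      | cons j l' =>
        have : j = i := by simpa using h
        subst this
        refine ⟨l', (chain_cons.1 h1).2, by simp at h2 ⊢; omega, fun x => ?_⟩
        change _ = s j (act l x)
        rw [← h3]
        exact (s_s j _).symm
    · refine ⟨i :: l', chain_cons.2 ⟨h, h1⟩, by simpa using h2, fun x => ?_⟩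
      change s i _ = s i _
      exact congrArg _ (h3 x)

lemma act_append (l l' : List (Fin 3)) (x : Y) : act (l ++ l') x = act l (act l' x) :=
  List.foldr_append

lemma act_rev (l : List (Fin 3)) (x : Y) : act l.reverse (act l x) = x := by
  induction l with
  | nil => rfl
  | cons i l ih =>
    rw [List.reverse_cons, act_append]
    change act l.reverse (s i (s i (act l x))) = x
    rw [s_s, ih]

lemma lev_finite (n : ℕ) : {x : Y | x.1 < n}.Finite := by
  have : {x : Y | x.1 < n} ⊆ ⋃ m ∈ Set.Iio n, Set.range (fun g => (⟨m, g⟩ : Y)) := by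
    rintro ⟨m, g⟩ h
    simp only [Set.mem_iUnion]
    exact ⟨m, h, g, rfl⟩
  exact ((Set.finite_Iio n).biUnion fun m _ => Set.finite_range _).subset this

def P (n : ℕ) (x y : Y) : Prop :=
  (∃ l : List (Fin 3), l.length ≤ n ∧ act l y = x) ∨ (x.1 < n ∧ y.1 < n)

lemma P_ex (x y : Y) : ∃ n, P n x y := ⟨x.1 + y.1 + 1, Or.inr ⟨by omega, by omega⟩⟩

lemma P_symm {n : ℕ} {x y : Y} (h : P n x y) : P n y x := by
  rcases h with ⟨l, h1, rfl⟩ | h
  · exact Or.inl ⟨l.reverse, by simpa using h1, act_rev l y⟩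
  · exact Or.inr ⟨h.2, h.1⟩

lemma P_trans {n m : ℕ} {x y z : Y} (h : P n x y) (h' : P m y z) : P (n + m) x z := by
  rcases h with ⟨l, h1, rfl⟩ | h <;> rcases h' with ⟨l', h2, rfl⟩ | h'
  · exact Or.inl ⟨l ++ l', by simp; omega, act_append _ _ _⟩
  · exact Or.inr ⟨by rw [act_lev]; omega, by omega⟩
  · rw [act_lev] at h
    exact Or.inr ⟨by omega, by omega⟩
  · exact Or.inr ⟨by omega, by omega⟩

lemma P_mono {n m : ℕ} {x y : Y} (h : P n x y) (hnm : n ≤ m) : P m x y := by
  rcases h with ⟨l, h1, h2⟩ | h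
  · exact Or.inl ⟨l, by omega, h2⟩
  · exact Or.inr ⟨by omega, by omega⟩

open Classical in
noncomputable def d (x y : Y) : ℕ := Nat.find (P_ex x y)

lemma d_le {n : ℕ} {x y : Y} : d x y ≤ n ↔ P n x y := by
  classical
  constructor
  · intro h
    exact P_mono (Nat.find_spec (P_ex x y)) h
  · intro h
    exact Nat.find_min' _ h

noncomputable instance : MetricSpace Y where
  dist x y := d x y
  dist_self x := by
    have : d x x ≤ 0 := d_le.2 (Or.inl ⟨[], le_rfl, rfl⟩)
    simpa using this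
  dist_comm x y := by
    have : d x y = d y x :=
      le_antisymm (d_le.2 (P_symm (d_le.1 le_rfl))) (d_le.2 (P_symm (d_le.1 le_rfl)))
    exact_mod_cast this
  dist_triangle x y z := by
    have : d x z ≤ d x y + d y z := d_le.2 (P_trans (d_le.1 le_rfl) (d_le.1 le_rfl))
    exact_mod_cast this
  eq_of_dist_eq_zero {x y} h := by
    have h1 : d x y ≤ 0 := by simpa using h
    rcases d_le.1 h1 with ⟨l, h2, h3⟩ | h2
    · have : l = [] := by simpa using h2
      subst this
      exact h3.symm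
    · omega

lemma dist_eq (x y : Y) : dist x y = d x y := rfl

lemma bdd_geom (R : ℝ) : ∃ N : ℕ, ∀ x : Y,
    (Metric.ball x R).Finite ∧ (Metric.ball x R).ncard ≤ N := by
  set n := ⌈R⌉₊
  have hL := List.finite_length_le (Fin 3) n
  refine ⟨{l : List (Fin 3) | l.length ≤ n}.ncard + {x : Y | x.1 < n}.ncard, fun x => ?_⟩
  have hs : Metric.ball x R ⊆
      (fun l => act l x) '' {l : List (Fin 3) | l.length ≤ n} ∪ {x : Y | x.1 < n} := by
    intro y hy
    rw [Metric.mem_ball, dist_eq] at hy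
    have h1 : d y x ≤ n := by
      have := Nat.le_ceil R
      exact_mod_cast (hy.le.trans this)
    rcases d_le.1 h1 with ⟨l, h2, h3⟩ | h2
    · exact Or.inl ⟨l, h2, h3⟩
    · exact Or.inr h2.1
  have hf := (hL.image (fun l => act l x)).union (lev_finite n)
  refine ⟨hf.subset hs, (Set.ncard_le_ncard hs hf).trans ((Set.ncard_union_le _ _).trans ?_)⟩
  exact Nat.add_le_add_right (Set.ncard_image_le hL) _

open Classical in
lemma iso (F : Finset Y) (z : Y) (S : ℕ) (hS : S < z.1)
    (hF : ∀ x ∈ F, ∃ l : List (Fin 3), l.length ≤ S ∧ act l z = x) :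
    F.card ≤ ∑ x ∈ F, ∑ i : Fin 3, if s i x ∈ F then 0 else 1 := by
  have h1 : ∀ x ∈ F, ∃ l : List (Fin 3), l.IsChain (· ≠ ·) ∧ l.length ≤ S ∧ act l z = x := by
    intro x hx
    obtain ⟨l, h2, h3⟩ := hF x hx
    obtain ⟨l', h4, h5, h6⟩ := reduce l
    exact ⟨l', h4, by omega, by rw [h6, h3]⟩
  choose! L hL1 hL2 hL3 using h1
  set C : Finset (Y × Fin 3) :=
    (F ×ˢ Finset.univ).filter (fun p => (L p.1).head? ≠ some p.2) with hC
  have hC1 : 2 * F.card ≤ C.card := by
    rw [hC, Finset.card_filter, Finset.sum_product, mul_comm, ← smul_eq_mul, ← Finset.sum_const]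
    apply Finset.sum_le_sum
    intro x _
    have : ∀ o : Option (Fin 3), 2 ≤ ∑ y : Fin 3, if o ≠ some y then 1 else 0 := by decide
    exact this _
  have hC2 : (C.filter (fun p => s p.2 p.1 ∈ F)).card ≤ F.card := by
    apply Finset.card_le_card_of_injOn (fun p => s p.2 p.1)
    · intro p hp
      exact (Finset.mem_filter.1 hp).2
    · intro p hp q hq e
      have hp' := Finset.mem_filter.1 (Finset.mem_filter.1 hp).1
      have hq' := Finset.mem_filter.1 (Finset.mem_filter.1 hq).1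
      have hp1 := (Finset.mem_product.1 hp'.1).1
      have hq1 := (Finset.mem_product.1 hq'.1).1
      have e1 : act (p.2 :: L p.1) z = act (q.2 :: L q.1) z := by
        change s p.2 (act _ z) = s q.2 (act _ z)
        rw [hL3 _ hp1, hL3 _ hq1]; exact e
      have e2 := act_inj _ _ z
        ⟨chain_cons.2 ⟨hp'.2, hL1 _ hp1⟩, by have := hL2 _ hp1; simp; omega⟩
        ⟨chain_cons.2 ⟨hq'.2, hL1 _ hq1⟩, by have := hL2 _ hq1; simp; omega⟩ e1
      have e3 := List.cons.inj e2
      refine Prod.ext ?_ e3.1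
      rw [← hL3 _ hp1, ← hL3 _ hq1, e3.2]
  have hC3 : (C.filter (fun p => ¬ s p.2 p.1 ∈ F)).card
      ≤ ∑ x ∈ F, ∑ i : Fin 3, if s i x ∈ F then 0 else 1 := by
    refine (Finset.card_le_card (Finset.filter_subset_filter _
      (Finset.filter_subset _ _))).trans (le_of_eq ?_)
    rw [Finset.card_filter, Finset.sum_product]
    simp only [ite_not]
  have := Finset.card_filter_add_card_filter_not (s := C) (fun p => s p.2 p.1 ∈ F)
  omega

lemma notA (S : ℝ) (A : Y → Set (Y × ℕ)) (h1 : ∀ x, (A x).Finite)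
    (h3 : ∀ x, ∀ w ∈ A x, dist w.1 x ≤ S)
    (h4 : ∀ x y, dist x y < 2 →
      ((symmDiff (A x) (A y)).ncard : ℝ) < 1 / 3 * ((A x ∩ A y).ncard : ℝ)) : False := by
  classical
  set n := ⌈S⌉₊ with hn
  have hV : {x : Y | x.1 = n + 1}.Finite :=
    (lev_finite (n + 2)).subset fun x hx => by simp at hx ⊢; omega
  set V := hV.toFinset with hVd
  have hVm : ∀ x, x ∈ V ↔ x.1 = n + 1 := by intro x; simp [hVd]
  set B : Y → Finset (Y × ℕ) := fun x => (h1 x).toFinset with hB
  have hBm : ∀ x w, w ∈ B x ↔ w ∈ A x := by intro x w; simp [hB]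
  set W := V.biUnion B with hW
  have k1 : ∀ w ∈ W, (V.filter (fun x => w ∈ B x)).card ≤
      ∑ x ∈ V, ∑ i : Fin 3, if w ∈ B x ∧ w ∉ B (s i x) then 1 else 0 := by
    intro w hw
    have hP : ∀ x ∈ V.filter (fun x => w ∈ B x),
        ∃ l : List (Fin 3), l.length ≤ n ∧ act l w.1 = x := by
      intro x hx
      obtain ⟨hx1, hx2⟩ := Finset.mem_filter.1 hx
      have h5 := h3 x w ((hBm _ _).1 hx2)
      rw [dist_comm, dist_eq] at h5
      have h6 : d x w.1 ≤ n := by exact_mod_cast h5.trans (Nat.le_ceil S)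
      rcases d_le.1 h6 with h7 | h7
      · exact h7
      · have := (hVm x).1 hx1; omega
    obtain ⟨x0, hx0, hx1⟩ := Finset.mem_biUnion.1 hw
    obtain ⟨l0, _, hl0⟩ := hP x0 (Finset.mem_filter.2 ⟨hx0, hx1⟩)
    have hz : w.1.1 = n + 1 := by rw [← act_lev l0, hl0]; exact (hVm _).1 hx0
    refine (iso _ w.1 n (by omega) hP).trans (le_of_eq ?_)
    rw [Finset.sum_filter]
    refine Finset.sum_congr rfl fun x hx => ?_
    have hs : ∀ i, s i x ∈ V := fun i => (hVm _).2 ((hVm x).1 hx)
    by_cases hwx : w ∈ B x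
    · simp only [hwx, if_true, true_and, Finset.mem_filter, hs, ite_not]
    · simp [hwx]
  have k2 : ∑ w ∈ W, (V.filter (fun x => w ∈ B x)).card = ∑ x ∈ V, (B x).card := by
    simp only [Finset.card_filter]
    rw [Finset.sum_comm]
    refine Finset.sum_congr rfl fun x hx => ?_
    rw [← Finset.card_filter]
    congr 1
    ext w
    simp only [Finset.mem_filter, and_iff_right_iff_imp]
    intro h; exact Finset.mem_biUnion.2 ⟨x, hx, h⟩
  have k3 : ∀ x ∈ V, ∀ i : Fin 3,
      3 * (∑ w ∈ W, if w ∈ B x ∧ w ∉ B (s i x) then 1 else 0) < (B x).card := by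
    intro x hx i
    have h5 : d x (s i x) ≤ 1 := d_le.2 (Or.inl ⟨[i], le_rfl, s_s i x⟩)
    have h6 := h4 x (s i x) (by
      rw [dist_eq]
      have : (d x (s i x) : ℝ) ≤ 1 := by exact_mod_cast h5
      linarith)
    have h7 : (A x ∩ A (s i x)).ncard ≤ (B x).card := by
      rw [hB, ← Set.ncard_eq_toFinset_card _ (h1 x)]
      exact Set.ncard_le_ncard Set.inter_subset_left (h1 x)
    have h8 : (∑ w ∈ W, if w ∈ B x ∧ w ∉ B (s i x) then 1 else 0)
        ≤ (symmDiff (A x) (A (s i x))).ncard := by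
      rw [← Finset.card_filter, ← Set.ncard_coe_finset]
      refine Set.ncard_le_ncard ?_ (((h1 x).union (h1 (s i x))).subset symmDiff_le_sup)
      intro w hw
      have := (Finset.mem_filter.1 hw).2
      rw [hBm, hBm] at this
      exact Or.inl this
    have h9 : 3 * (symmDiff (A x) (A (s i x))).ncard < (A x ∩ A (s i x)).ncard := by
      have : (3:ℝ) * (symmDiff (A x) (A (s i x))).ncard < (A x ∩ A (s i x)).ncard := by linarith
      exact_mod_cast this
    omega
  have k4 := Finset.sum_le_sum k1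
  rw [k2, Finset.sum_comm] at k4
  have k5 : ∑ x ∈ V, (∑ w ∈ W, ∑ i : Fin 3, if w ∈ B x ∧ w ∉ B (s i x) then 1 else 0)
      < ∑ x ∈ V, (B x).card := by
    apply Finset.sum_lt_sum_of_nonempty ⟨⟨n + 1, 1⟩, (hVm _).2 rfl⟩
    intro x hx
    rw [Finset.sum_comm, Fin.sum_univ_three]
    have := k3 x hx 0
    have := k3 x hx 1
    have := k3 x hx 2
    omega
  omega

end Pool.Agent.H.MP_e081a1_an
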